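import Mathlib

namespace Pool.Agent.MP_9fb7a1_lc

open Filter MeasureTheory

/-- The characteristic function of a set `A`, a point of Cantor space, used as an oracle. -/
def oracleOf (A : ℕ → Bool) : ℕ →. ℕ := fun n => Part.some (A n).toNat

/-- The uniform (coin-toss) measure on Cantor space. -/
noncomputable def coin : Measure (ℕ → Bool) :=
  Measure.infinitePi fun _ : ℕ => (PMF.uniformOfFintype Bool).toMeasure

/-- Upper asymptotic density. -/
noncomputable def upperDensity (X : ℕ → Bool) : ℝ :=
  limsup (fun n : ℕ => (((Finset.range n).filter fun i => X i = true).card : ℝ) / n) atTop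

/-- The density pseudometric: upper density of the symmetric difference. -/
noncomputable def delta (A B : ℕ → Bool) : ℝ := upperDensity fun n => xor (A n) (B n)

/-- The Turing degree of `A`, as a set of points of Cantor space. -/
def degree (A : ℕ → Bool) : Set (ℕ → Bool) := {X | TuringEquivalent (oracleOf X) (oracleOf A)}

/-- The Hausdorff distance, for the density metric, between the degrees of `A` and `B`. -/
noncomputable def hDist (A B : ℕ → Bool) : ℝ :=
  max (⨆ X : degree A, ⨅ Y : degree B, delta X Y) (⨆ Y : degree B, ⨅ X : degree A, delta X Y)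

/-- `A` is attractive. -/
def Attractive (A : ℕ → Bool) : Prop := ∀ᵐ B ∂coin, hDist A B = 1 / 2

/-- `A` is almost everywhere dominating. -/
def AEDominating (A : ℕ → Bool) : Prop :=
  ∀ᵐ B ∂coin, ∀ f : ℕ → ℕ, TuringReducible (fun n => Part.some (f n)) (oracleOf B) →
    ∃ g : ℕ → ℕ, TuringReducible (fun n => Part.some (g n)) (oracleOf A) ∧
      ∀ᶠ n in atTop, f n ≤ g n

/-- The degree of `A` contains a computably enumerable set. -/
def HasCEDegree (A : ℕ → Bool) : Prop := ∃ W ∈ degree A, REPred fun n => W n = true

end Pool.Agent.MP_9fb7a1_lc
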